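import Pool.Agent.Run7.h987.RT.Iface

/-! Piece BLK (project MP_fc1499_an, helper987) -/

set_option autoImplicit false

open Set
open scoped Topology

namespace Pool.Agent.Run7.h676.RT

open Pool.Agent.Run7.h987.BL Pool.Agent.Run7.h987.RT

universe u

variable {k : ℕ} {X : Type u} [MetricSpace X] [AddAction (Zk k) X]

lemma dN_continuous {N : ℕ} (hN : 0 < N) (hact : ∀ n : Zk k, Continuous fun x : X => n +ᵥ x) :
    Continuous fun p : X × X => dN k N p.1 p.2 := by
  have : Nonempty (Fin N) := ⟨⟨0, hN⟩⟩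
  have h1 : (fun p : X × X => dN k N p.1 p.2) = fun p : X × X =>
      (Finset.univ : Finset (Fin k → Fin N)).sup' Finset.univ_nonempty
        (fun n => dist ((fun i => ((n i : ℕ) : ℤ)) +ᵥ p.1) ((fun i => ((n i : ℕ) : ℤ)) +ᵥ p.2)) := by
    funext p
    rw [Finset.sup'_univ_eq_ciSup]
    rfl
  rw [h1]
  refine Continuous.finset_sup'_apply Finset.univ_nonempty fun n _ => ?_
  exact ((hact _).comp continuous_fst).dist ((hact _).comp continuous_snd)

lemma exists_delta [CompactSpace X] {N l : ℕ} (hN : 0 < N)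
    (hact : ∀ n : Zk k, Continuous fun x : X => n +ᵥ x) {ε : ℝ} {φ : X → E l}
    (hφ : Continuous φ) (h : ∀ x y, φ x = φ y → dN k N x y < ε) :
    ∃ δ : ℝ, 0 < δ ∧ ∀ x y, dist (φ x) (φ y) < δ → dN k N x y < ε := by
  have hc := dN_continuous (k := k) (X := X) hN hact
  set Z : Set (X × X) := {p | ε ≤ dN k N p.1 p.2} with hZ
  have hZc : IsCompact Z := (isClosed_le continuous_const hc).isCompact
  have hd : Continuous fun p : X × X => dist (φ p.1) (φ p.2) :=
    (hφ.comp continuous_fst).dist (hφ.comp continuous_snd)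
  rcases Z.eq_empty_or_nonempty with hE | hne
  · refine ⟨1, one_pos, fun x y _ => ?_⟩
    by_contra hcon
    have : ((x, y) : X × X) ∈ Z := not_lt.1 hcon
    rw [hE] at this
    exact this
  · obtain ⟨p, hp, hmin⟩ := hZc.exists_isMinOn hne hd.continuousOn
    refine ⟨dist (φ p.1) (φ p.2), ?_, fun x y hxy => ?_⟩
    · rw [dist_pos]
      intro he
      exact absurd (h _ _ he) (not_lt.2 hp)
    · by_contra hcon
      have hm : ((x, y) : X × X) ∈ Z := not_lt.1 hcon
      have := hmin hm
      exact absurd hxy (not_lt.2 this)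

/-- `ι → ℂ` versus `Fin (2 #ι) → ℝ` -/
lemma genpos (h2 : P_GPV) {ι : Type} [Fintype ι] {J : ℕ} (v : Fin J → ι → ℂ) {η : ℝ}
    (hη : 0 < η) : ∃ w : Fin J → ι → ℂ, (∀ j a, ‖w j a - v j a‖ ≤ η) ∧
    ∀ (s : Finset (Fin J)) (c : Fin J → ℝ), s.card ≤ 2 * Fintype.card ι →
      (∑ i ∈ s, (fun a => (c i : ℂ) * w i a) = fun _ => (0 : ℂ)) → ∀ i ∈ s, c i = 0 := by
  classical
  have hcard : Fintype.card (Fin (2 * Fintype.card ι)) = Fintype.card (ι × Fin 2) := by
    rw [Fintype.card_prod, Fintype.card_fin, Fintype.card_fin, mul_comm]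
  set e : Fin (2 * Fintype.card ι) ≃ ι × Fin 2 := Fintype.equivOfCardEq hcard with he
  set T : (ι → ℂ) → (Fin (2 * Fintype.card ι) → ℝ) := fun x j =>
    if (e j).2 = 0 then (x (e j).1).re else (x (e j).1).im with hT
  obtain ⟨w, hw1, hw2⟩ := h2 (2 * Fintype.card ι) J (fun j => T (v j)) (η / 2) (by positivity)
  refine ⟨fun j a => ⟨w j (e.symm (a, 0)), w j (e.symm (a, 1))⟩, fun j a => ?_, ?_⟩
  · have hb : ∀ b, |w j b - T (v j) b| ≤ η / 2 := by
      intro b
      have h := norm_le_pi_norm (w j - T (v j)) b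
      rw [Real.norm_eq_abs] at h
      exact h.trans (hw1 j).le
    have h0 := hb (e.symm (a, 0))
    have h1 := hb (e.symm (a, 1))
    simp only [hT, Equiv.apply_symm_apply, if_true] at h0
    simp only [hT, Equiv.apply_symm_apply, one_ne_zero, if_false] at h1
    refine (Complex.norm_le_abs_re_add_abs_im _).trans ?_
    simp only [Complex.sub_re, Complex.sub_im]
    linarith
  · intro s c hs hsum i hi
    have hli := hw2 s hs
    rw [linearIndependent_iff'] at hli
    have key : ∑ i ∈ s.attach, c i.1 • w i.1 = 0 := by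
      rw [Finset.sum_attach s (fun i => c i • w i)]
      funext b
      rw [Finset.sum_apply]
      have h1 := congrFun hsum (e b).1
      rw [Finset.sum_apply] at h1
      simp only [Pi.smul_apply, smul_eq_mul, Pi.zero_apply]
      have hr := congrArg Complex.re h1
      have him := congrArg Complex.im h1
      rw [Complex.re_sum] at hr
      rw [Complex.im_sum] at him
      simp only [Complex.mul_re, Complex.mul_im, Complex.ofReal_re, Complex.ofReal_im, zero_mul,
        sub_zero, add_zero, Complex.zero_re, Complex.zero_im] at hr him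
      have hb2 : (e b).2 = 0 ∨ (e b).2 = 1 := by
        generalize (e b).2 = t
        fin_cases t <;> simp
      rcases hb2 with h | h
      · have hb3 : e.symm ((e b).1, 0) = b := by
          rw [← h]
          simp
        rw [hb3] at hr
        exact hr
      · have hb3 : e.symm ((e b).1, 1) = b := by
          rw [← h]
          simp
        rw [hb3] at him
        exact him
    exact hli Finset.univ (fun i => c i.1) (by
      rw [Finset.univ_eq_attach]
      exact key) ⟨i, hi⟩ (Finset.mem_univ _)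

theorem t_BLK (h1 : P_COV) (h2 : P_GPV) : P_BLK.{u} := by
  intro k X _ _ _ N m ε η ι _ g hk hN hact hW hm hε hη hg hgη
  classical
  obtain ⟨l, P, φ, hPf, hPc, hφ, hφP, hφi⟩ := hW
  obtain ⟨δ, hδ, hδ2⟩ := exists_delta hN hact hφ hφi
  obtain ⟨J, V, hVo, hVc, hVd, hVn⟩ := h1 l m P hPf hPc δ hδ
  have hUo : ∀ i, IsOpen (φ ⁻¹' V i) := fun i => (hVo i).preimage hφ
  have hUd : ∀ i y y', y ∈ φ ⁻¹' V i → y' ∈ φ ⁻¹' V i → dN k N y y' < ε := fun i y y' h h' =>
    hδ2 _ _ (hVd i _ h _ h')
  have hex : ∀ i, ∃ h : X → ℝ, Continuous h ∧ (∀ x, 0 ≤ h x) ∧ (∀ x, h x ≤ 1) ∧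
      ∀ x, h x ≠ 0 ↔ x ∈ φ ⁻¹' V i := fun i => exists_marker_fun (hUo i)
  choose h hhc hh0 hh1 hhU using hex
  set S : X → ℝ := fun x => ∑ i, h i x with hS
  have hSc : Continuous S := continuous_finsetSum _ fun i _ => hhc i
  have hcov : ∀ x, ∃ i, x ∈ φ ⁻¹' V i := by
    intro x
    have := hVc (hφP x)
    rwa [mem_iUnion] at this
  have hSpos : ∀ x, 0 < S x := by
    intro x
    obtain ⟨i, hi⟩ := hcov x
    have h3 : 0 < h i x := lt_of_le_of_ne (hh0 i x) (Ne.symm ((hhU i x).2 hi))
    exact lt_of_lt_of_le h3 (Finset.single_le_sum (f := fun i => h i x) (fun i _ => hh0 i x)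
      (Finset.mem_univ i))
  set lam : Fin J → X → ℝ := fun i x => h i x / S x with hlam
  have hlc : ∀ i, Continuous (lam i) := fun i => (hhc i).div hSc fun x => (hSpos x).ne'
  have hl0 : ∀ i x, 0 ≤ lam i x := fun i x => div_nonneg (hh0 i x) (hSpos x).le
  have hl1 : ∀ x, ∑ i, lam i x = 1 := by
    intro x
    simp only [hlam]
    rw [← Finset.sum_div]
    exact div_self (hSpos x).ne'
  have hlU : ∀ i x, lam i x ≠ 0 → x ∈ φ ⁻¹' V i := by
    intro i x hne
    rw [← hhU]
    intro h0
    apply hne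
    simp only [hlam, h0, zero_div]
  -- centres
  have hy : ∀ i, ∃ v : ι → ℂ, ∀ y ∈ φ ⁻¹' V i, ∀ a, ‖v a - g y a‖ ≤ η := by
    intro i
    rcases (φ ⁻¹' V i).eq_empty_or_nonempty with hE | ⟨y0, hy0⟩
    · refine ⟨0, fun y hy => ?_⟩
      rw [hE] at hy
      exact absurd hy (notMem_empty y)
    · exact ⟨g y0, fun y hy a => hgη _ _ (hUd i _ _ hy0 hy) a⟩
  choose v hv using hy
  obtain ⟨w, hw1, hw2⟩ := genpos h2 v hη
  refine ⟨fun y a => ∑ i, (lam i y : ℂ) * w i a, ?_, ?_, ?_⟩
  · refine continuous_pi fun a => continuous_finsetSum _ fun i _ => ?_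
    exact (Complex.continuous_ofReal.comp (hlc i)).mul continuous_const
  · intro y a
    have e1 : (∑ i, (lam i y : ℂ) * w i a) - g y a = ∑ i, (lam i y : ℂ) * (w i a - g y a) := by
      simp only [mul_sub]
      rw [Finset.sum_sub_distrib, ← Finset.sum_mul, ← Complex.ofReal_sum, hl1 y]
      simp
    rw [e1]
    refine (norm_sum_le _ _).trans ?_
    have e2 : ∀ i ∈ (Finset.univ : Finset (Fin J)),
        ‖(lam i y : ℂ) * (w i a - g y a)‖ ≤ lam i y * (2 * η) := by
      intro i _
      rw [norm_mul, Complex.norm_real, Real.norm_eq_abs, abs_of_nonneg (hl0 i y)]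
      by_cases h0 : lam i y = 0
      · rw [h0, zero_mul, zero_mul]
      · refine mul_le_mul_of_nonneg_left ?_ (hl0 i y)
        have h3 := hv i y (hlU i y h0) a
        have h4 := hw1 i a
        calc ‖w i a - g y a‖ = ‖(w i a - v i a) + (v i a - g y a)‖ := by ring_nf
          _ ≤ ‖w i a - v i a‖ + ‖v i a - g y a‖ := norm_add_le _ _
          _ ≤ 2 * η := by linarith
    refine (Finset.sum_le_sum e2).trans ?_
    rw [← Finset.sum_mul, hl1 y, one_mul]
  · intro y y' hG
    set s : Finset (Fin J) := Finset.univ.filter (fun i => lam i y ≠ 0) ∪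
      Finset.univ.filter (fun i => lam i y' ≠ 0) with hs
    have hc : ∀ z : X, (Finset.univ.filter fun i => lam i z ≠ 0).card ≤ m + 1 := by
      intro z
      refine hVn (φ z) _ fun i hi => ?_
      exact hlU i z (Finset.mem_filter.1 hi).2
    have hsc : s.card ≤ 2 * Fintype.card ι := by
      have := Finset.card_union_le (Finset.univ.filter (fun i => lam i y ≠ 0))
        (Finset.univ.filter (fun i => lam i y' ≠ 0))
      have h3 := hc y
      have h4 := hc y'
      rw [hs]
      omega
    have hsum : (∑ i ∈ s, (fun a => ((lam i y - lam i y' : ℝ) : ℂ) * w i a)) =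
        fun _ => (0 : ℂ) := by
      funext a
      rw [Finset.sum_apply]
      have h3 := congrFun hG a
      simp only at h3
      have h4 : ∑ i ∈ s, ((lam i y - lam i y' : ℝ) : ℂ) * w i a =
          ∑ i, ((lam i y - lam i y' : ℝ) : ℂ) * w i a := by
        refine Finset.sum_subset (Finset.subset_univ s) fun i _ hi => ?_
        have h5 : lam i y = 0 ∧ lam i y' = 0 := by
          rw [hs, Finset.mem_union, not_or, Finset.mem_filter, Finset.mem_filter] at hi
          simp only [Finset.mem_univ, true_and, not_not] at hi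
          exact hi
        rw [h5.1, h5.2]
        simp
      rw [h4]
      have h6 : ∑ i, ((lam i y - lam i y' : ℝ) : ℂ) * w i a =
          (∑ i, (lam i y : ℂ) * w i a) - ∑ i, (lam i y' : ℂ) * w i a := by
        rw [← Finset.sum_sub_distrib]
        refine Finset.sum_congr rfl fun i _ => ?_
        push_cast
        ring
      rw [h6, h3, sub_self]
    have hz := hw2 s (fun i => lam i y - lam i y') hsc hsum
    obtain ⟨i, hi⟩ : ∃ i, lam i y ≠ 0 := by
      by_contra hcon
      push Not at hcon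
      have := hl1 y
      simp only [hcon, Finset.sum_const_zero] at this
      exact zero_ne_one this
    have his : i ∈ s := Finset.mem_union_left _ (Finset.mem_filter.2 ⟨Finset.mem_univ _, hi⟩)
    have h7 : lam i y = lam i y' := sub_eq_zero.1 (hz i his)
    exact hUd i _ _ (hlU i y hi) (hlU i y' (h7 ▸ hi))

end Pool.Agent.Run7.h676.RT
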