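import Pool.Agent.Run7.h987.RT.Iface

/-! Piece MARKF (project MP_fc1499_an, helper987) -/

set_option autoImplicit false

open Set
open scoped Topology

namespace Pool.Agent.Run7.h676.RT

open Pool.Agent.Run7.h987.BL Pool.Agent.Run7.h987.RT

universe u

theorem t_MARKF : P_MARKF.{u} := by
  intro k X _ _ _ hk hact hM N hN
  obtain ⟨U, hUo, hUd, hUc⟩ := hM N hN
  obtain ⟨h0, h0c, h0n, h0l, h0U⟩ := exists_marker_fun hUo
  have hpos : ∀ x, x ∈ U → 0 < h0 x := fun x hx =>
    lt_of_le_of_ne (h0n x) (Ne.symm ((h0U x).2 hx))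
  -- compactness
  have hopen : ∀ p : Zk k × ℕ, IsOpen {x : X | 1 / ((p.2 : ℝ) + 1) < h0 (p.1 +ᵥ x)} := fun p =>
    isOpen_lt continuous_const (h0c.comp (hact p.1))
  have hcov : (univ : Set X) ⊆ ⋃ p : Zk k × ℕ, {x : X | 1 / ((p.2 : ℝ) + 1) < h0 (p.1 +ᵥ x)} := by
    intro x _
    have hx : x ∈ ⋃ n : Zk k, (fun x => n +ᵥ x) '' U := by rw [hUc]; trivial
    rw [mem_iUnion] at hx
    obtain ⟨n, y, hy, hyx⟩ := hx
    have h1 : (-n) +ᵥ x = y := by
      rw [← hyx]
      exact neg_vadd_vadd n y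
    obtain ⟨i, hi⟩ := exists_nat_one_div_lt (hpos y hy)
    rw [mem_iUnion]
    refine ⟨(-n, i), ?_⟩
    show 1 / ((i : ℝ) + 1) < h0 ((-n) +ᵥ x)
    rw [h1]
    exact hi
  obtain ⟨t, ht⟩ := isCompact_univ.elim_finite_subcover _ hopen hcov
  set I : ℕ := t.sup fun p => p.2 with hI
  set c : ℝ := 1 / ((I : ℝ) + 1) with hc
  have hc0 : 0 < c := by positivity
  have hfind : ∀ x : X, ∃ n : Zk k, (∃ i, (n, i) ∈ t) ∧ c ≤ h0 (n +ᵥ x) := by
    intro x
    have hx := ht (mem_univ x)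
    rw [mem_iUnion₂] at hx
    obtain ⟨p, hp, hpx⟩ := hx
    refine ⟨p.1, ⟨p.2, hp⟩, ?_⟩
    have h1 : p.2 ≤ I := Finset.le_sup (f := fun p : Zk k × ℕ => p.2) hp
    have h2 : (p.2 : ℝ) ≤ I := by exact_mod_cast h1
    have h3 : c ≤ 1 / ((p.2 : ℝ) + 1) := by
      rw [hc]
      apply one_div_le_one_div_of_le
      · positivity
      · linarith
    exact h3.trans (le_of_lt hpx)
  have hsum : ∀ (n : Zk k) (i : ℕ), (n, i) ∈ t →
      ‖(vec n : E k)‖ ≤ ∑ p ∈ t, ‖(vec p.1 : E k)‖ := by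
    intro n i hi
    have h := Finset.sum_le_sum_of_subset_of_nonneg (f := fun p : Zk k × ℕ => ‖(vec p.1 : E k)‖)
      (Finset.singleton_subset_iff.2 hi) (fun _ _ _ => norm_nonneg _)
    rw [Finset.sum_singleton] at h
    exact h
  refine ⟨(∑ p ∈ t, ‖(vec p.1 : E k)‖) + k, fun x => min 1 (h0 x / c), ?_, ?_, ?_⟩
  · have : 0 ≤ ∑ p ∈ t, ‖(vec p.1 : E k)‖ := Finset.sum_nonneg fun _ _ => norm_nonneg _
    positivity
  · exact continuous_const.min (h0c.div_const c)
  intro x
  refine ⟨fun n => le_min zero_le_one (div_nonneg (h0n _) hc0.le), fun n => min_le_left _ _, ?_, ?_⟩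
  · intro n m hnm h1 h2
    have hne : ∀ y : X, 0 < min 1 (h0 y / c) → h0 y ≠ 0 := by
      intro y hy h
      rw [h] at hy
      simp at hy
    have h3 := marker_sparse (N := N) (U := U) (fun n hn hb => by
      rw [Set.disjoint_iff_inter_eq_empty]
      exact hUd n hn hb) h0U x n m hnm (hne _ h1) (hne _ h2)
    push Not at h3
    obtain ⟨i, hi⟩ := h3
    have h4 : (N : ℝ) ≤ |((n i : ℝ) - m i)| := by exact_mod_cast hi
    have h5 : |((n i : ℝ) - m i)| ≤ ‖(vec n - vec m : E k)‖ := by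
      have h6 := PiLp.norm_apply_le (vec n - vec m : E k) i
      rw [Real.norm_eq_abs] at h6
      exact h6
    exact h4.trans h5
  · intro s
    set q : Zk k := fun i => ⌊s i⌋ with hq
    obtain ⟨n, ⟨i, hi⟩, hn⟩ := hfind (q +ᵥ x)
    refine ⟨n + q, ?_, ?_⟩
    · have h1 : (n + q) +ᵥ x = n +ᵥ (q +ᵥ x) := (vadd_vadd n q x).symm
      have h2 : 1 ≤ h0 ((n + q) +ᵥ x) / c := by
        rw [h1, le_div_iff₀ hc0, one_mul]
        exact hn
      exact min_eq_left h2
    · rw [vec_add]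
      have h1 : (vec n + vec q - s : E k) = vec n + (vec q - s) := by abel
      rw [h1]
      refine (norm_add_le _ _).trans (add_le_add ?_ ?_)
      · exact hsum n i hi
      · have h2 : ‖(vec q - s : E k)‖ ^ 2 ≤ (k : ℝ) ^ 2 := by
          rw [EuclideanSpace.real_norm_sq_eq]
          have h3 : ∀ j ∈ (Finset.univ : Finset (Fin k)), (vec q - s : E k) j ^ 2 ≤ 1 := by
            intro j _
            have h4 : (vec q - s : E k) j = (⌊s j⌋ : ℝ) - s j := rfl
            rw [h4]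
            have h5 := Int.floor_le (s j)
            have h6 := Int.lt_floor_add_one (s j)
            nlinarith
          have h7 := Finset.sum_le_sum h3
          simp only [Finset.sum_const, Finset.card_univ, Fintype.card_fin, nsmul_eq_mul,
            mul_one] at h7
          have h8 : (1 : ℝ) ≤ k := by exact_mod_cast hk
          nlinarith
        exact abs_le_of_sq_le_sq' h2 (by positivity) |>.2

end Pool.Agent.Run7.h676.RT
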